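import Pool.Agent.H566W.Ana

set_option autoImplicit false

/-! Countable-to-one quotients and the perfect-set dichotomy. -/

namespace Pool.Agent.H702R3.TV

open Set MeasureTheory

/-- The combinatorial core. -/
theorem core {X Y : Type} {E : X → X → Prop} (hEs : ∀ x y, E x y → E y x)
    (hEt : ∀ x y z, E x y → E y z → E x z) {F : Y → Y → Prop} {ρ : X → Y} {A : Set X}
    (hcount : ∀ x ∈ A, ∃ C : Set X, C.Countable ∧ ∀ x' ∈ A, F (ρ x) (ρ x') → ∃ c ∈ C, E c x')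
    (f : (ℕ → Bool) → X) (hfA : ∀ a, f a ∈ A) (hf : ∀ a b, E (f a) (f b) → a = b)
    (han : AnalyticSet {p : (ℕ → Bool) × (ℕ → Bool) | F (ρ (f p.1)) (ρ (f p.2))}) :
    ∃ h : (ℕ → Bool) → (ℕ → Bool), Continuous h ∧
      ∀ b b', b ≠ b' → ¬ F (ρ (f (h b))) (ρ (f (h b'))) := by
  refine Pool.Agent.H566W.perfect_independent (fun a b => F (ρ (f a)) (ρ (f b))) han ?_
  intro a
  obtain ⟨C, hC, hC2⟩ := hcount (f a) (hfA a)
  have hsub : {b | F (ρ (f a)) (ρ (f b))} ⊆ ⋃ c ∈ C, {b | E c (f b)} := by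
    intro b hb
    obtain ⟨c, hc, h⟩ := hC2 (f b) (hfA b) hb
    exact mem_biUnion hc h
  refine (hC.biUnion fun c _ => Set.Subsingleton.countable ?_).mono hsub
  intro b hb b' hb'
  exact hf b b' (hEt _ _ _ (hEs _ _ hb) hb')

/-- Orbit equivalence relations are analytic. -/
theorem analytic_orbit {G Y : Type} [Group G] [MeasurableSpace G] [StandardBorelSpace G]
    [MeasurableSpace Y] [StandardBorelSpace Y] [MulAction G Y]
    (hY : Measurable fun p : G × Y => p.1 • p.2) (u v : (ℕ → Bool) → Y) (hu : Measurable u)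
    (hv : Measurable v) :
    AnalyticSet {p : (ℕ → Bool) × (ℕ → Bool) | ∃ g : G, g • u p.1 = v p.2} := by
  have h1 : MeasurableSet {q : ((ℕ → Bool) × (ℕ → Bool)) × G | q.2 • u q.1.1 = v q.1.2} := by
    refine measurableSet_eq_fun ?_ ?_
    · exact hY.comp (measurable_snd.prodMk (hu.comp (measurable_fst.comp measurable_fst)))
    · exact hv.comp (measurable_snd.comp measurable_fst)
  have h2 : {p : (ℕ → Bool) × (ℕ → Bool) | ∃ g : G, g • u p.1 = v p.2} =
      Prod.fst '' {q : ((ℕ → Bool) × (ℕ → Bool)) × G | q.2 • u q.1.1 = v q.1.2} := by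
    ext p
    constructor
    · rintro ⟨g, hg⟩
      exact ⟨(p, g), hg, rfl⟩
    · rintro ⟨⟨p', g⟩, hg, rfl⟩
      exact ⟨g, hg⟩
  rw [h2]
  exact h1.analyticSet_image measurable_fst

/-- Countably many orbits, or a Borel family of pairwise inequivalent points. -/
def Dichotomy (G : Type) {X : Type} [Group G] [MulAction G X] [MeasurableSpace X]
    (A : Set X) : Prop :=
  (∃ C : Set X, C.Countable ∧ ∀ x ∈ A, ∃ c ∈ C, ∃ g : G, g • c = x) ∨
  (∃ f : (ℕ → Bool) → X, Measurable f ∧ (∀ a, f a ∈ A) ∧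
    ∀ a b, (∃ g : G, g • f a = f b) → a = b)

theorem quotient {H G X Y : Type} [Group H] [Group G] [MeasurableSpace G]
    [StandardBorelSpace G] [MeasurableSpace X] [MeasurableSpace Y] [StandardBorelSpace Y]
    [MulAction H X] [MulAction G Y] (hY : Measurable fun p : G × Y => p.1 • p.2)
    (φ : H →* G) (ρ : X → Y) (hρ : Measurable ρ) (hφ : ∀ h x, ρ (h • x) = φ h • ρ x)
    (A : Set X)
    (hc : ∀ y, ∃ C : Set X, C.Countable ∧ ∀ x ∈ A, (∃ g : G, g • y = ρ x) →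
      ∃ c ∈ C, ∃ h : H, h • c = x) (hA : Dichotomy H A) : Dichotomy G (ρ '' A) := by
  rcases hA with ⟨C, hC, hC2⟩ | ⟨f, hf, hfA, hfi⟩
  · left
    refine ⟨ρ '' C, hC.image ρ, ?_⟩
    rintro _ ⟨x, hx, rfl⟩
    obtain ⟨c, hc, h, hh⟩ := hC2 x hx
    exact ⟨ρ c, mem_image_of_mem ρ hc, φ h, by rw [← hφ, hh]⟩
  · right
    have han := analytic_orbit hY (fun a => ρ (f a)) (fun a => ρ (f a)) (hρ.comp hf)
      (hρ.comp hf)
    obtain ⟨h, hh1, hh2⟩ := core (E := fun x y : X => ∃ g : H, g • x = y)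
      (F := fun x y : Y => ∃ g : G, g • x = y) (ρ := ρ) (A := A)
      (fun x y ⟨g, hg⟩ => ⟨g⁻¹, by rw [← hg, inv_smul_smul]⟩)
      (fun x y z ⟨g, hg⟩ ⟨g', hg'⟩ => ⟨g' * g, by rw [mul_smul, hg, hg']⟩)
      (fun x hx => hc (ρ x)) f hfA hfi han
    refine ⟨fun a => ρ (f (h a)), (hρ.comp hf).comp hh1.measurable,
      fun a => mem_image_of_mem ρ (hfA _), fun a b hab => ?_⟩
    by_contra hne
    exact hh2 a b hne hab

end Pool.Agent.H702R3.TV
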