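import Pool.Agent.H702R3.TV.Main

set_option autoImplicit false
set_option linter.unusedVariables false

/-! The dichotomy is preserved when finitely many elements are added. -/

namespace Pool.Agent.H702R3.TV.Ext

open Set MeasureTheory
open Pool.Agent.H702R3.TV (core)

/-- structures with binary relations `x.1 i` and unary predicates `x.2 i` -/
abbrev W : Type := (ℕ → ℕ → ℕ → Bool) × (ℕ → ℕ → Bool)

/-- isomorphism -/
def IsoW (σ : Equiv.Perm ℕ) (x y : W) : Prop :=
  (∀ i m k, y.1 i (σ m) (σ k) = x.1 i m k) ∧ ∀ i m, y.2 i (σ m) = x.2 i m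

/-- relabelling -/
def relW (σ : Equiv.Perm ℕ) (z : W) : W :=
  (fun i m k => z.1 i (σ m) (σ k), fun i m => z.2 i (σ m))

theorem relW_iso (σ : Equiv.Perm ℕ) (z : W) : IsoW σ (relW σ z) z :=
  ⟨fun _ _ _ => rfl, fun _ _ => rfl⟩

theorem isoW_eq {σ : Equiv.Perm ℕ} {x y : W} (h : IsoW σ x y) : x = relW σ y := by
  refine Prod.ext ?_ ?_
  · funext i m k; exact (h.1 i m k).symm
  · funext i m; exact (h.2 i m).symm

theorem isoW_symm {σ : Equiv.Perm ℕ} {x y : W} (h : IsoW σ x y) : IsoW σ.symm y x := by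
  rw [isoW_eq h]
  refine ⟨fun i m n => ?_, fun i m => ?_⟩ <;> simp [relW]

theorem isoW_trans {σ τ : Equiv.Perm ℕ} {x y z : W} (h : IsoW σ x y) (h' : IsoW τ y z) :
    IsoW (σ.trans τ) x z := by
  rw [isoW_eq h, isoW_eq h']
  exact ⟨fun _ _ _ => rfl, fun _ _ => rfl⟩

/-- indices of the unary predicates of a code -/
abbrev S : Type := ℕ ⊕ (ℕ × ℕ) ⊕ (ℕ × ℕ) ⊕ (ℕ × ℕ × ℕ) ⊕ (ℕ × ℕ)

/-- numbering of the indices -/
def e : S ≃ ℕ := Denumerable.eqv S

open Classical in
/-- adding the elements `0, ..., n - 1` -/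
noncomputable def gl (n : ℕ) (z : W) : W :=
  (fun i m k => if m < n then (if k < n then decide (∃ p, z.2 (e (.inr (.inr (.inr (.inl
      (i, m, k)))))) p = true) else z.2 (e (.inr (.inl (i, m)))) (k - n))
    else if k < n then z.2 (e (.inr (.inr (.inl (i, k))))) (m - n) else z.1 i (m - n) (k - n),
   fun i m => if m < n then decide (∃ p, z.2 (e (.inr (.inr (.inr (.inr (i, m)))))) p = true)
    else z.2 (e (.inl i)) (m - n))

/-- the unary predicates of the code -/
def un (n : ℕ) (x : W) : S → ℕ → Bool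
  | .inl i, m => x.2 i (m + n)
  | .inr (.inl (i, f)), m => decide (f < n) && x.1 i f (m + n)
  | .inr (.inr (.inl (i, f))), m => decide (f < n) && x.1 i (m + n) f
  | .inr (.inr (.inr (.inl (i, f, g)))), m => decide (f < n) && decide (g < n) && x.1 i f g
  | .inr (.inr (.inr (.inr (i, f)))), m => decide (f < n) && x.2 i f

/-- removing the elements `0, ..., n - 1` -/
def sh (n : ℕ) (x : W) : W := (fun i m k => x.1 i (m + n) (k + n), fun i m => un n x (e.symm i) m)

theorem gl_sh (n : ℕ) (x : W) : gl n (sh n x) = x := by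
  refine Prod.ext ?_ ?_
  · funext i m k
    by_cases hm : m < n <;> by_cases hk : k < n
    · simp [gl, sh, un, hm, hk]
    · have : k - n + n = k := by omega
      simp [gl, sh, un, hm, hk, this]
    · have : m - n + n = m := by omega
      simp [gl, sh, un, hm, hk, this]
    · have h1 : k - n + n = k := by omega
      have h2 : m - n + n = m := by omega
      simp [gl, sh, un, hm, hk, h1, h2]
  · funext i m
    by_cases hm : m < n
    · simp [gl, sh, un, hm]
    · have : m - n + n = m := by omega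
      simp [gl, sh, un, hm, this]

/-- the extension of a permutation -/
def plus (n : ℕ) (σ : Equiv.Perm ℕ) : Equiv.Perm ℕ where
  toFun m := if m < n then m else σ (m - n) + n
  invFun m := if m < n then m else σ.symm (m - n) + n
  left_inv m := by
    by_cases hm : m < n
    · simp [hm]
    · have : m - n + n = m := by omega
      simp [hm, this]
  right_inv m := by
    by_cases hm : m < n
    · simp [hm]
    · have : m - n + n = m := by omega
      simp [hm, this]

theorem plus_lt {n m : ℕ} (σ : Equiv.Perm ℕ) (h : m < n) : plus n σ m = m := by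
  show (if m < n then m else σ (m - n) + n) = m
  rw [if_pos h]

theorem plus_ge {n m : ℕ} (σ : Equiv.Perm ℕ) (h : ¬ m < n) : plus n σ m = σ (m - n) + n := by
  show (if m < n then m else σ (m - n) + n) = _
  rw [if_neg h]

theorem gl_rel (n : ℕ) (σ : Equiv.Perm ℕ) (z : W) :
    gl n (relW σ z) = relW (plus n σ) (gl n z) := by
  have key : ∀ Q : ℕ → Prop, (∃ p, Q (σ p)) ↔ ∃ p, Q p := fun Q =>
    ⟨fun ⟨p, h⟩ => ⟨σ p, h⟩, fun ⟨p, h⟩ => ⟨σ.symm p, by rw [σ.apply_symm_apply]; exact h⟩⟩
  refine Prod.ext ?_ ?_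
  · funext i m k
    show (gl n (relW σ z)).1 i m k = (gl n z).1 i (plus n σ m) (plus n σ k)
    by_cases hm : m < n <;> by_cases hk : k < n
    · rw [plus_lt σ hm, plus_lt σ hk]
      simp only [gl, hm, hk, if_true]
      exact decide_eq_decide.2 (key fun p =>
        z.2 (e (Sum.inr (Sum.inr (Sum.inr (Sum.inl (i, m, k)))))) p = true)
    · rw [plus_lt σ hm, plus_ge σ hk]
      simp [gl, hm, hk, relW]
    · rw [plus_ge σ hm, plus_lt σ hk]
      simp [gl, hm, hk, relW]
    · rw [plus_ge σ hm, plus_ge σ hk]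
      simp [gl, hm, hk, relW]
  · funext i m
    show (gl n (relW σ z)).2 i m = (gl n z).2 i (plus n σ m)
    by_cases hm : m < n
    · rw [plus_lt σ hm]
      simp only [gl, hm, if_true]
      exact decide_eq_decide.2 (key fun p =>
        z.2 (e (Sum.inr (Sum.inr (Sum.inr (Sum.inr (i, m)))))) p = true)
    · rw [plus_ge σ hm]
      simp [gl, hm, relW]

theorem plus_add (n : ℕ) (σ : Equiv.Perm ℕ) (m : ℕ) : plus n σ (m + n) = σ m + n := by
  rw [plus_ge σ (by omega), Nat.add_sub_cancel]

theorem sh_rel (n : ℕ) (σ : Equiv.Perm ℕ) (x : W) :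
    sh n (relW (plus n σ) x) = relW σ (sh n x) := by
  refine Prod.ext ?_ ?_
  · funext i m k
    show x.1 i (plus n σ (m + n)) (plus n σ (k + n)) = x.1 i (σ m + n) (σ k + n)
    rw [plus_add, plus_add]
  · funext i m
    show un n (relW (plus n σ) x) (e.symm i) m = un n x (e.symm i) (σ m)
    rcases e.symm i with j | ⟨j, f⟩ | ⟨j, f⟩ | ⟨j, f, g⟩ | ⟨j, f⟩
    · show x.2 j (plus n σ (m + n)) = x.2 j (σ m + n)
      rw [plus_add]
    · show (decide (f < n) && x.1 j (plus n σ f) (plus n σ (m + n))) =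
        (decide (f < n) && x.1 j f (σ m + n))
      rw [plus_add]
      by_cases hf : f < n
      · rw [plus_lt σ hf]
      · simp [hf]
    · show (decide (f < n) && x.1 j (plus n σ (m + n)) (plus n σ f)) =
        (decide (f < n) && x.1 j (σ m + n) f)
      rw [plus_add]
      by_cases hf : f < n
      · rw [plus_lt σ hf]
      · simp [hf]
    · show (decide (f < n) && decide (g < n) && x.1 j (plus n σ f) (plus n σ g)) =
        (decide (f < n) && decide (g < n) && x.1 j f g)
      by_cases hf : f < n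
      · by_cases hg : g < n
        · rw [plus_lt σ hf, plus_lt σ hg]
        · simp [hg]
      · simp [hf]
    · show (decide (f < n) && x.2 j (plus n σ f)) = (decide (f < n) && x.2 j f)
      by_cases hf : f < n
      · rw [plus_lt σ hf]
      · simp [hf]

/-- a permutation fixing `0, ..., n - 1` is an extension -/
theorem exists_plus {n : ℕ} (π : Equiv.Perm ℕ) (h : ∀ f < n, π f = f) :
    ∃ σ : Equiv.Perm ℕ, plus n σ = π := by
  have h1 : ∀ m, n ≤ π (m + n) := by
    intro m
    by_contra hc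
    have h2 := h (π (m + n)) (by omega)
    have h3 := π.injective h2
    omega
  have h' : ∀ f < n, π.symm f = f := by
    intro f hf
    rw [Equiv.symm_apply_eq, h f hf]
  have h2 : ∀ m, n ≤ π.symm (m + n) := by
    intro m
    by_contra hc
    have h2 := h' (π.symm (m + n)) (by omega)
    have h3 := π.symm.injective h2
    omega
  refine ⟨⟨fun m => π (m + n) - n, fun m => π.symm (m + n) - n, fun m => ?_, fun m => ?_⟩, ?_⟩
  · show π.symm (π (m + n) - n + n) - n = m
    rw [Nat.sub_add_cancel (h1 m), π.symm_apply_apply, Nat.add_sub_cancel]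
  · show π (π.symm (m + n) - n + n) - n = m
    rw [Nat.sub_add_cancel (h2 m), π.apply_symm_apply, Nat.add_sub_cancel]
  · ext m
    by_cases hm : m < n
    · rw [plus_lt _ hm, h m hm]
    · rw [plus_ge _ hm]
      show π (m - n + n) - n + n = π m
      have e1 : m - n + n = m := by omega
      have := h1 (m - n)
      rw [e1] at this ⊢
      omega

theorem count_key {n : ℕ} {z z' x : W} (hz : z = sh n (gl n z)) (hz' : z' = sh n (gl n z'))
    {τ τ' : Equiv.Perm ℕ} (h : IsoW τ (gl n z) x) (h' : IsoW τ' (gl n z') x)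
    (ht : ∀ f < n, τ f = τ' f) : ∃ σ : Equiv.Perm ℕ, IsoW σ z z' := by
  have h1 := isoW_trans h (isoW_symm h')
  obtain ⟨σ, hσ⟩ := exists_plus (n := n) (τ.trans τ'.symm) (fun f hf => by
    show τ'.symm (τ f) = f
    rw [ht f hf, τ'.symm_apply_apply])
  refine ⟨σ, ?_⟩
  have e1 : gl n z = relW (plus n σ) (gl n z') := by
    rw [hσ]
    exact isoW_eq h1
  have e2 : z = relW σ z' := by
    rw [hz, e1, sh_rel, ← hz']
  rw [e2]
  exact relW_iso σ z'

theorem meas_of {Ω : Type} [MeasurableSpace Ω] {ρ : Ω → W}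
    (h1 : ∀ i m n, Measurable fun z => (ρ z).1 i m n) (h3 : ∀ m n, Measurable fun z => (ρ z).2 m n) :
    Measurable ρ := by
  refine Measurable.prodMk ?_ ?_
  · exact measurable_pi_iff.2 fun i => measurable_pi_iff.2 fun m => measurable_pi_iff.2 fun n =>
      h1 i m n
  · exact measurable_pi_iff.2 fun m => measurable_pi_iff.2 fun n => h3 m n

theorem m1 (i m n : ℕ) : Measurable fun z : W => z.1 i m n :=
  (measurable_pi_apply n).comp ((measurable_pi_apply m).comp ((measurable_pi_apply i).comp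
    measurable_fst))

theorem m2 (i m : ℕ) : Measurable fun z : W => z.2 i m :=
  (measurable_pi_apply m).comp ((measurable_pi_apply i).comp measurable_snd)

open Classical in
theorem m_ex (i : ℕ) : Measurable fun z : W => decide (∃ p, z.2 i p = true) := by
  refine measurable_to_bool ?_
  have h : Measurable fun z : W => ∃ p, z.2 i p = true :=
    Measurable.exists fun p => measurableSet_setOfPred.1 ((m2 i p) (measurableSet_singleton true))
  have e1 : (fun z : W => decide (∃ p, z.2 i p = true)) ⁻¹' {true} =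
      {z : W | ∃ p, z.2 i p = true} := by
    ext z
    simp
  rw [e1]
  exact measurableSet_setOfPred.2 h

theorem m_gl (n : ℕ) : Measurable (gl n) := by
  refine meas_of (fun i m k => ?_) fun i m => ?_
  · by_cases hm : m < n <;> by_cases hk : k < n
    · simpa only [gl, hm, hk, if_true] using m_ex _
    · simpa only [gl, hm, hk, if_true, if_false] using m2 _ _
    · simpa only [gl, hm, hk, if_true, if_false] using m2 _ _
    · simpa only [gl, hm, hk, if_false] using m1 _ _ _
  · by_cases hm : m < n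
    · simpa only [gl, hm, if_true] using m_ex _
    · simpa only [gl, hm, if_false] using m2 _ _

theorem m_and {Ω : Type} [MeasurableSpace Ω] (c : Bool) {f : Ω → Bool} (hf : Measurable f) :
    Measurable fun z => (c && f z) := by
  cases c
  · simpa using measurable_const
  · simpa using hf

theorem m_sh (n : ℕ) : Measurable (sh n) := by
  refine meas_of (fun i m k => m1 _ _ _) fun i m => ?_
  show Measurable fun z : W => un n z (e.symm i) m
  rcases e.symm i with j | ⟨j, f⟩ | ⟨j, f⟩ | ⟨j, f, g⟩ | ⟨j, f⟩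
  · exact m2 _ _
  · exact m_and _ (m1 _ _ _)
  · exact m_and _ (m1 _ _ _)
  · exact m_and _ (m1 _ _ _)
  · exact m_and _ (m2 _ _)

/-- isomorphism of Borel families is analytic -/
theorem analytic_isoW (u v : (ℕ → Bool) → W) (hu : Measurable u) (hv : Measurable v) :
    AnalyticSet {p : (ℕ → Bool) × (ℕ → Bool) | ∃ σ : Equiv.Perm ℕ, IsoW σ (u p.1) (v p.2)} := by
  set Ω : Type := ((ℕ → Bool) × (ℕ → Bool)) × ((ℕ → ℕ) × (ℕ → ℕ)) with hΩ
  have k1 : ∀ a b : ℕ, Measurable fun q : Ω => q.2.1 a = b := fun a b => by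
    have h : Measurable fun q : Ω => q.2.1 a :=
      (measurable_pi_apply a).comp (measurable_fst.comp measurable_snd)
    exact measurableSet_setOfPred.1 (h (measurableSet_singleton b))
  have k2 : ∀ a b : ℕ, Measurable fun q : Ω => q.2.2 a = b := fun a b => by
    have h : Measurable fun q : Ω => q.2.2 a :=
      (measurable_pi_apply a).comp (measurable_snd.comp measurable_snd)
    exact measurableSet_setOfPred.1 (h (measurableSet_singleton b))
  have k3 : ∀ (f g : Ω → Bool), Measurable f → Measurable g →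
      Measurable fun q : Ω => f q = g q := fun f g hf hg =>
    measurableSet_setOfPred.1 (measurableSet_eq_fun hf hg)
  have mu : Measurable fun q : Ω => u q.1.1 := hu.comp (measurable_fst.comp measurable_fst)
  have mv : Measurable fun q : Ω => v q.1.2 := hv.comp (measurable_snd.comp measurable_fst)
  let P : Ω → Prop := fun q => (∀ a b, q.2.1 a = b → q.2.2 b = a) ∧
    (∀ a b, q.2.2 a = b → q.2.1 b = a) ∧
    (∀ i a b c d, q.2.1 a = c → q.2.1 b = d → (v q.1.2).1 i c d = (u q.1.1).1 i a b) ∧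
    ∀ i a c, q.2.1 a = c → (v q.1.2).2 i c = (u q.1.1).2 i a
  have hP : Measurable P := by
    refine (Measurable.forall fun a => Measurable.forall fun b => (k1 a b).imp (k2 b a)).and ?_
    refine (Measurable.forall fun a => Measurable.forall fun b => (k2 a b).imp (k1 b a)).and ?_
    refine (Measurable.forall fun i => Measurable.forall fun a => Measurable.forall fun b =>
      Measurable.forall fun c => Measurable.forall fun d => (k1 a c).imp ((k1 b d).imp
        (k3 _ _ ((m1 i c d).comp mv) ((m1 i a b).comp mu)))).and ?_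
    exact Measurable.forall fun i => Measurable.forall fun a => Measurable.forall fun c =>
      (k1 a c).imp (k3 _ _ ((m2 i c).comp mv) ((m2 i a).comp mu))
  have h2 : {p : (ℕ → Bool) × (ℕ → Bool) | ∃ σ : Equiv.Perm ℕ, IsoW σ (u p.1) (v p.2)} =
      Prod.fst '' {q : Ω | P q} := by
    ext p
    constructor
    · rintro ⟨σ, hσ⟩
      refine ⟨(p, (⇑σ, ⇑σ.symm)), ⟨?_, ?_, ?_, ?_⟩, rfl⟩
      · rintro a b rfl; exact σ.symm_apply_apply a
      · rintro a b rfl; exact σ.apply_symm_apply a
      · rintro i a b c d rfl rfl; exact hσ.1 i a b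
      · rintro i a c rfl; exact hσ.2 i a
    · rintro ⟨⟨p', s, t⟩, ⟨h1, h2, h4, h5⟩, rfl⟩
      exact ⟨⟨s, t, fun a => h1 a _ rfl, fun a => h2 a _ rfl⟩,
        fun i a b => h4 i a b _ _ rfl rfl, fun i a => h5 i a _ rfl⟩
  rw [h2]
  exact (measurableSet_setOfPred.2 hP).analyticSet_image measurable_fst

theorem bsW : BorelSpace W := by
  have h2 : BorelSpace (ℕ → ℕ → Bool) := inferInstance
  have h3 : SecondCountableTopology (ℕ → ℕ → Bool) := inferInstance
  have h1 : BorelSpace (ℕ → ℕ → ℕ → Bool) := Pi.borelSpace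
  exact Prod.borelSpace

/-- countably many isomorphism types, or a continuous family of pairwise non-isomorphic
structures indexed by the Cantor space -/
def CP (C : Set W) : Prop :=
  (∃ f : ℕ → W, ∀ x ∈ C, ∃ (n : ℕ) (σ : Equiv.Perm ℕ), IsoW σ (f n) x) ∨
  (∃ c : (ℕ → Bool) → W, Continuous c ∧ (∀ a, c a ∈ C) ∧
    ∀ a b, (∃ σ : Equiv.Perm ℕ, IsoW σ (c a) (c b)) → a = b)

/-- isomorphism invariance -/
def Inv (C : Set W) : Prop := ∀ x ∈ C, ∀ (y : W) (σ : Equiv.Perm ℕ), IsoW σ x y → y ∈ C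

theorem closure (V : Set (ℕ → ℕ → ℕ → Bool)) (hVm : MeasurableSet {z : W | z.1 ∈ V})
    (hVi : Inv {z : W | z.1 ∈ V})
    (hD : ∀ C : Set W, MeasurableSet C → Inv C → (∀ z ∈ C, z.1 ∈ V) → CP C)
    (B : Set W) (hB : MeasurableSet B) (hi : Inv B)
    (hV : ∀ x ∈ B, ∃ (n : ℕ) (y : W) (σ : Equiv.Perm ℕ), IsoW σ x y ∧ (sh n y).1 ∈ V) :
    CP B := by
  classical
  let A : ℕ → Set W := fun n => {z | z.1 ∈ V ∧ z = sh n (gl n z) ∧ gl n z ∈ B}
  have hA : ∀ n, MeasurableSet (A n) := fun n =>
    hVm.inter ((measurableSet_eq_fun measurable_id ((m_sh n).comp (m_gl n))).inter (m_gl n hB))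
  have hAi : ∀ n, Inv (A n) := by
    intro n x hx y σ h
    have e1 : y = relW σ.symm x := isoW_eq (isoW_symm h)
    refine ⟨hVi x hx.1 y σ h, ?_, ?_⟩
    · rw [e1, gl_rel, sh_rel, ← hx.2.1]
    · rw [e1, gl_rel]
      exact hi _ hx.2.2 _ _ (isoW_symm (relW_iso (plus n σ.symm) (gl n x)))
  by_cases hall : ∀ n, ∃ f : ℕ → W, ∀ x ∈ A n, ∃ (j : ℕ) (σ : Equiv.Perm ℕ), IsoW σ (f j) x
  · left
    choose f hf using hall
    refine ⟨fun j => gl (Nat.unpair j).1 (f (Nat.unpair j).1 (Nat.unpair j).2), ?_⟩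
    intro x hx
    obtain ⟨n, y, σ, h1, h2⟩ := hV x hx
    have hy : y ∈ B := hi x hx y σ h1
    have hz : sh n y ∈ A n := ⟨h2, by rw [gl_sh], by rw [gl_sh]; exact hy⟩
    obtain ⟨j, τ, hτ⟩ := hf n (sh n y) hz
    refine ⟨Nat.pair n j, (plus n τ).trans σ.symm, ?_⟩
    have e1 : IsoW (plus n τ) (gl n (f n j)) y := by
      have e2 := isoW_eq hτ
      have e3 : gl n (f n j) = relW (plus n τ) y := by
        rw [e2, gl_rel, gl_sh]
      rw [e3]
      exact relW_iso _ _
    show IsoW _ (gl (Nat.unpair (Nat.pair n j)).1 (f (Nat.unpair (Nat.pair n j)).1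
      (Nat.unpair (Nat.pair n j)).2)) x
    rw [Nat.unpair_pair]
    exact isoW_trans e1 (isoW_symm h1)
  · push Not at hall
    obtain ⟨n, hn⟩ := hall
    rcases hD (A n) (hA n) (hAi n) (fun z hz => hz.1) with ⟨f, hf⟩ | ⟨c, hc, hcA, hci⟩
    · obtain ⟨x, hx, hx2⟩ := hn f
      obtain ⟨j, σ, h⟩ := hf x hx
      exact absurd h (hx2 j σ)
    right
    have hbs := bsW
    have hme : Measurable fun a => gl n (c a) := (m_gl n).comp hc.measurable
    have han := analytic_isoW (fun a => gl n (c a)) (fun a => gl n (c a)) hme hme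
    have hcnt : ∀ x ∈ A n, ∃ C : Set W, C.Countable ∧ ∀ x' ∈ A n,
        (∃ σ : Equiv.Perm ℕ, IsoW σ (gl n x) (gl n x')) →
        ∃ c ∈ C, ∃ σ : Equiv.Perm ℕ, IsoW σ c x' := by
      intro x hx
      let Q : (Fin n → ℕ) → W → Prop := fun t z => z ∈ A n ∧
        ∃ τ : Equiv.Perm ℕ, IsoW τ (gl n z) (gl n x) ∧ ∀ f : Fin n, τ f = t f
      refine ⟨Set.range fun t : Fin n → ℕ => if h : ∃ z, Q t z then h.choose else x,
        Set.countable_range _, ?_⟩
      rintro x' hx' ⟨σ, hσ⟩
      have h1 := isoW_symm hσ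
      have hex : ∃ z, Q (fun f => σ.symm f) z := ⟨x', hx', σ.symm, h1, fun f => rfl⟩
      refine ⟨_, ⟨fun f => σ.symm f, rfl⟩, ?_⟩
      simp only [dif_pos hex]
      obtain ⟨h2, τ, h3, h4⟩ := hex.choose_spec
      exact count_key h2.2.1 hx'.2.1 h3 h1 fun f hf => h4 ⟨f, hf⟩
    obtain ⟨h, hh1, hh2⟩ := core (E := fun x y : W => ∃ σ : Equiv.Perm ℕ, IsoW σ x y)
      (F := fun x y : W => ∃ σ : Equiv.Perm ℕ, IsoW σ x y) (ρ := gl n) (A := A n)
      (fun x y ⟨σ, hσ⟩ => ⟨_, isoW_symm hσ⟩)
      (fun x y z ⟨σ, hσ⟩ ⟨τ, hτ⟩ => ⟨_, isoW_trans hσ hτ⟩) hcnt c hcA hci han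
    have hk : Measurable fun a => gl n (c (h a)) := hme.comp hh1.measurable
    obtain ⟨h', h1', h2'⟩ := Pool.Agent.H31R3.AL.cont_of_borel (fun a => gl n (c (h a))) hk
    refine ⟨_, h2', fun a => (hcA _).2.2, fun a b hab => ?_⟩
    apply h1'
    by_contra hne
    exact hh2 _ _ hne hab

end Pool.Agent.H702R3.TV.Ext
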