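import Pool.Agent.H702R3.TV.Ext
import Pool.Agent.H566M.AllW
import Pool.Agent.H31R3.SO.Semi

set_option autoImplicit false
set_option linter.unusedVariables false

/-! Instances of the closure theorem. -/

namespace Pool.Agent.H702R3.TV.Ext

open Set MeasureTheory

/-- systems of binary relations -/
abbrev Sys : Type := ℕ → ℕ → ℕ → Bool

/-- `T 0` is a strict linear order, `T 1` is monotone for it, the other relations are empty -/
structure MonoOrd (T : Sys) : Prop where
  irr : ∀ m, T 0 m m = false
  tr : ∀ m n k, T 0 m n = true → T 0 n k = true → T 0 m k = true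
  tot : ∀ m n, m ≠ n → T 0 m n = true ∨ T 0 n m = true
  left : ∀ m n k, T 0 m n = true → T 1 n k = true → T 1 m k = true
  right : ∀ m n k, T 1 m n = true → T 0 n k = true → T 1 m k = true
  emp : ∀ i m n, T (i + 2) m n = false

/-- `T 0` is a strict partial order without antichains of three elements, the other relations are
empty -/
structure WidthTwo (T : Sys) : Prop where
  irr : ∀ m, T 0 m m = false
  tr : ∀ m n k, T 0 m n = true → T 0 n k = true → T 0 m k = true
  width : ∀ m n k, m ≠ n → n ≠ k → m ≠ k → T 0 m n = true ∨ T 0 n m = true ∨ T 0 n k = true ∨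
    T 0 k n = true ∨ T 0 m k = true ∨ T 0 k m = true
  emp : ∀ i m n, T (i + 1) m n = false

/-- `T 0` is a strict semiorder, the other relations are empty -/
structure SemiOrd (T : Sys) : Prop where
  irr : ∀ m, T 0 m m = false
  io : ∀ x y z w, T 0 x y = true → T 0 z w = true → T 0 x w = true ∨ T 0 z y = true
  st : ∀ x y z w, T 0 x y = true → T 0 y z = true → T 0 x w = true ∨ T 0 w z = true
  emp : ∀ i m n, T (i + 1) m n = false

theorem mT (i m n : ℕ) : Measurable fun T : Sys => T i m n = true := by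
  have h : Measurable fun T : Sys => T i m n :=
    (measurable_pi_apply n).comp ((measurable_pi_apply m).comp (measurable_pi_apply i))
  exact measurableSet_setOfPred.1 (h (measurableSet_singleton true))

theorem mF (i m n : ℕ) : Measurable fun T : Sys => T i m n = false := by
  have h : Measurable fun T : Sys => T i m n :=
    (measurable_pi_apply n).comp ((measurable_pi_apply m).comp (measurable_pi_apply i))
  exact measurableSet_setOfPred.1 (h (measurableSet_singleton false))

theorem m_mono : MeasurableSet {T : Sys | MonoOrd T} := by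
  have e1 : {T : Sys | MonoOrd T} = {T : Sys | (∀ m, T 0 m m = false) ∧
      (∀ m n k, T 0 m n = true → T 0 n k = true → T 0 m k = true) ∧
      (∀ m n, m ≠ n → T 0 m n = true ∨ T 0 n m = true) ∧
      (∀ m n k, T 0 m n = true → T 1 n k = true → T 1 m k = true) ∧
      (∀ m n k, T 1 m n = true → T 0 n k = true → T 1 m k = true) ∧
      ∀ i m n, T (i + 2) m n = false} := by
    ext T
    exact ⟨fun h => ⟨h.irr, h.tr, h.tot, h.left, h.right, h.emp⟩,
      fun h => ⟨h.1, h.2.1, h.2.2.1, h.2.2.2.1, h.2.2.2.2.1, h.2.2.2.2.2⟩⟩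
  rw [e1]
  refine measurableSet_setOfPred.2 ?_
  refine (Measurable.forall fun m => mF _ _ _).and ?_
  refine (Measurable.forall fun m => Measurable.forall fun n => Measurable.forall fun k =>
    (mT _ _ _).imp ((mT _ _ _).imp (mT _ _ _))).and ?_
  refine (Measurable.forall fun m => Measurable.forall fun n => measurable_const.imp
    ((mT _ _ _).or (mT _ _ _))).and ?_
  refine (Measurable.forall fun m => Measurable.forall fun n => Measurable.forall fun k =>
    (mT _ _ _).imp ((mT _ _ _).imp (mT _ _ _))).and ?_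
  refine (Measurable.forall fun m => Measurable.forall fun n => Measurable.forall fun k =>
    (mT _ _ _).imp ((mT _ _ _).imp (mT _ _ _))).and ?_
  exact Measurable.forall fun i => Measurable.forall fun m => Measurable.forall fun n => mF _ _ _

theorem m_width : MeasurableSet {T : Sys | WidthTwo T} := by
  have e1 : {T : Sys | WidthTwo T} = {T : Sys | (∀ m, T 0 m m = false) ∧
      (∀ m n k, T 0 m n = true → T 0 n k = true → T 0 m k = true) ∧
      (∀ m n k, m ≠ n → n ≠ k → m ≠ k → T 0 m n = true ∨ T 0 n m = true ∨ T 0 n k = true ∨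
        T 0 k n = true ∨ T 0 m k = true ∨ T 0 k m = true) ∧
      ∀ i m n, T (i + 1) m n = false} := by
    ext T
    exact ⟨fun h => ⟨h.irr, h.tr, h.width, h.emp⟩, fun h => ⟨h.1, h.2.1, h.2.2.1, h.2.2.2⟩⟩
  rw [e1]
  refine measurableSet_setOfPred.2 ?_
  refine (Measurable.forall fun m => mF _ _ _).and ?_
  refine (Measurable.forall fun m => Measurable.forall fun n => Measurable.forall fun k =>
    (mT _ _ _).imp ((mT _ _ _).imp (mT _ _ _))).and ?_
  refine (Measurable.forall fun m => Measurable.forall fun n => Measurable.forall fun k =>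
    measurable_const.imp (measurable_const.imp (measurable_const.imp ((mT _ _ _).or
      ((mT _ _ _).or ((mT _ _ _).or ((mT _ _ _).or ((mT _ _ _).or (mT _ _ _))))))))).and ?_
  exact Measurable.forall fun i => Measurable.forall fun m => Measurable.forall fun n => mF _ _ _

theorem m_semi : MeasurableSet {T : Sys | SemiOrd T} := by
  have e1 : {T : Sys | SemiOrd T} = {T : Sys | (∀ m, T 0 m m = false) ∧
      (∀ x y z w, T 0 x y = true → T 0 z w = true → T 0 x w = true ∨ T 0 z y = true) ∧
      (∀ x y z w, T 0 x y = true → T 0 y z = true → T 0 x w = true ∨ T 0 w z = true) ∧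
      ∀ i m n, T (i + 1) m n = false} := by
    ext T
    exact ⟨fun h => ⟨h.irr, h.io, h.st, h.emp⟩, fun h => ⟨h.1, h.2.1, h.2.2.1, h.2.2.2⟩⟩
  rw [e1]
  refine measurableSet_setOfPred.2 ?_
  refine (Measurable.forall fun m => mF _ _ _).and ?_
  refine (Measurable.forall fun x => Measurable.forall fun y => Measurable.forall fun z =>
    Measurable.forall fun w => (mT _ _ _).imp ((mT _ _ _).imp ((mT _ _ _).or (mT _ _ _)))).and ?_
  refine (Measurable.forall fun x => Measurable.forall fun y => Measurable.forall fun z =>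
    Measurable.forall fun w => (mT _ _ _).imp ((mT _ _ _).imp ((mT _ _ _).or (mT _ _ _)))).and ?_
  exact Measurable.forall fun i => Measurable.forall fun m => Measurable.forall fun n => mF _ _ _

/-- the relations of a structure off its first `n` elements -/
def rest (n : ℕ) (x : W) : Sys := fun i m k => x.1 i (m + n) (k + n)

/-- the closure theorem in terms of classes of systems -/
theorem closure' (V : Set Sys) (hVm : MeasurableSet V)
    (hVi : ∀ T ∈ V, ∀ σ : Equiv.Perm ℕ, (fun i m k => T i (σ m) (σ k)) ∈ V)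
    (hD : ∀ C : Set W, MeasurableSet C → Inv C → (∀ z ∈ C, z.1 ∈ V) → CP C)
    (B : Set W) (hB : MeasurableSet B) (hi : Inv B)
    (hV : ∀ x ∈ B, ∃ (n : ℕ) (y : W) (σ : Equiv.Perm ℕ), IsoW σ x y ∧ rest n y ∈ V) : CP B := by
  refine closure V (measurable_fst hVm) ?_ hD B hB hi hV
  intro x hx y σ h
  have e1 : y = relW σ.symm x := isoW_eq (isoW_symm h)
  rw [e1]
  exact hVi _ hx σ.symm

theorem pull {Y : Type} [TopologicalSpace Y] [MeasurableSpace Y]
    (isoY : Equiv.Perm ℕ → Y → Y → Prop) (j : Y → W) (hj : Continuous j)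
    (hiso : ∀ σ x y, IsoW σ (j x) (j y) ↔ isoY σ x y) (C : Set W) (hC : ∀ z ∈ C, ∃ x, j x = z)
    (h : (∃ f : ℕ → Y, ∀ x ∈ j ⁻¹' C, ∃ (n : ℕ) (σ : Equiv.Perm ℕ), isoY σ (f n) x) ∨
      (∃ c : (ℕ → Bool) → Y, Continuous c ∧ (∀ a, c a ∈ j ⁻¹' C) ∧
        ∀ a b, (∃ σ : Equiv.Perm ℕ, isoY σ (c a) (c b)) → a = b)) : CP C := by
  rcases h with ⟨f, hf⟩ | ⟨c, hc, hcC, hci⟩
  · left
    refine ⟨fun n => j (f n), fun z hz => ?_⟩
    obtain ⟨x, rfl⟩ := hC z hz
    obtain ⟨n, σ, h⟩ := hf x hz
    exact ⟨n, σ, (hiso _ _ _).2 h⟩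
  · right
    exact ⟨fun a => j (c a), hj.comp hc, hcC, fun a b ⟨σ, h⟩ => hci a b ⟨σ, (hiso _ _ _).1 h⟩⟩

/-- a structure with two binary relations as a member of `W` -/
def j3 (x : Z3) : W :=
  (fun i => if i = 0 then x.1 else if i = 1 then x.2.1 else fun _ _ => false, x.2.2)

/-- a structure with one binary relation as a member of `W` -/
def j2 (x : (ℕ → ℕ → Bool) × (ℕ → ℕ → Bool)) : W :=
  (fun i => if i = 0 then x.1 else fun _ _ => false, x.2)

theorem j3_cont : Continuous j3 := by
  refine Continuous.prodMk ?_ (continuous_snd.comp continuous_snd)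
  refine continuous_pi fun i => ?_
  by_cases h0 : i = 0
  · simp only [h0, if_true]
    exact continuous_fst
  · by_cases h1 : i = 1
    · simp only [h0, h1, if_true, if_false]
      exact continuous_fst.comp continuous_snd
    · simp only [h0, h1, if_false]
      exact continuous_const

theorem j2_cont : Continuous j2 := by
  refine Continuous.prodMk ?_ continuous_snd
  refine continuous_pi fun i => ?_
  by_cases h0 : i = 0
  · simp only [h0, if_true]
    exact continuous_fst
  · simp only [h0, if_false]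
    exact continuous_const

theorem j3_meas : Measurable j3 := by
  refine Measurable.prodMk ?_ (measurable_snd.comp measurable_snd)
  refine measurable_pi_iff.2 fun i => ?_
  by_cases h0 : i = 0
  · simp only [h0, if_true]
    exact measurable_fst
  · by_cases h1 : i = 1
    · simp only [h0, h1, if_true, if_false]
      exact measurable_fst.comp measurable_snd
    · simp only [h0, h1, if_false]
      exact measurable_const

theorem j2_meas : Measurable j2 := by
  refine Measurable.prodMk ?_ measurable_snd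
  refine measurable_pi_iff.2 fun i => ?_
  by_cases h0 : i = 0
  · simp only [h0, if_true]
    exact measurable_fst
  · simp only [h0, if_false]
    exact measurable_const

theorem j3_iso (σ : Equiv.Perm ℕ) (x y : Z3) : IsoW σ (j3 x) (j3 y) ↔ IsoZ σ x y := by
  constructor
  · rintro ⟨h1, h2⟩
    exact ⟨h1 0, h1 1, h2⟩
  · rintro ⟨h1, h2, h3⟩
    refine ⟨fun i m k => ?_, h3⟩
    show (if i = 0 then y.1 else if i = 1 then y.2.1 else fun _ _ => false) (σ m) (σ k) =
      (if i = 0 then x.1 else if i = 1 then x.2.1 else fun _ _ => false) m k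
    split_ifs
    · exact h1 m k
    · exact h2 m k
    · rfl

/-- isomorphism of structures with one binary relation -/
def Iso2 (σ : Equiv.Perm ℕ) (x y : (ℕ → ℕ → Bool) × (ℕ → ℕ → Bool)) : Prop :=
  (∀ m n, y.1 (σ m) (σ n) = x.1 m n) ∧ ∀ i m, y.2 i (σ m) = x.2 i m

theorem j2_iso (σ : Equiv.Perm ℕ) (x y : (ℕ → ℕ → Bool) × (ℕ → ℕ → Bool)) :
    IsoW σ (j2 x) (j2 y) ↔ Iso2 σ x y := by
  constructor
  · rintro ⟨h1, h2⟩
    exact ⟨h1 0, h2⟩
  · rintro ⟨h1, h3⟩
    refine ⟨fun i m k => ?_, h3⟩
    show (if i = 0 then y.1 else fun _ _ => false) (σ m) (σ k) =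
      (if i = 0 then x.1 else fun _ _ => false) m k
    split_ifs
    · exact h1 m k
    · rfl

theorem hD_mono (C : Set W) (hC : MeasurableSet C) (hi : Inv C)
    (hV : ∀ z ∈ C, z.1 ∈ {T : Sys | MonoOrd T}) : CP C := by
  refine pull IsoZ j3 j3_cont j3_iso C ?_ ?_
  · intro z hz
    refine ⟨(z.1 0, z.1 1, z.2), Prod.ext ?_ rfl⟩
    funext i
    show (if i = 0 then z.1 0 else if i = 1 then z.1 1 else fun _ _ => false) = z.1 i
    split_ifs with h0 h1
    · rw [h0]
    · rw [h1]
    · funext m n
      have := (hV z hz).emp (i - 2) m n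
      rw [show i - 2 + 2 = i by omega] at this
      exact this.symm
  · refine base (j3 ⁻¹' C) (j3_meas hC) (fun x hx => ?_) fun x hx y σ h => ?_
    · have h := hV _ hx
      refine ⟨⟨fun m => ?_, h.tr, h.tot⟩, h.left, h.right⟩
      have h1 : x.1 m m = false := h.irr m
      show ¬ x.1 m m = true
      rw [h1]
      exact Bool.false_ne_true
    · exact hi _ hx _ σ ((j3_iso σ x y).2 h)

theorem hD_width (C : Set W) (hC : MeasurableSet C) (hi : Inv C)
    (hV : ∀ z ∈ C, z.1 ∈ {T : Sys | WidthTwo T}) : CP C := by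
  refine pull Iso2 j2 j2_cont j2_iso C ?_ ?_
  · intro z hz
    refine ⟨(z.1 0, z.2), Prod.ext ?_ rfl⟩
    funext i
    show (if i = 0 then z.1 0 else fun _ _ => false) = z.1 i
    split_ifs with h0
    · rw [h0]
    · funext m n
      have := (hV z hz).emp (i - 1) m n
      rw [show i - 1 + 1 = i by omega] at this
      exact this.symm
  · refine Pool.Agent.H566M.outW (j2 ⁻¹' C) (j2_meas hC) (fun x hx => ?_) fun x hx y σ h => ?_
    · have h := hV _ hx
      refine ⟨h.irr, h.tr, ?_⟩
      rintro ⟨m, n, k, h1, h2, h3, h4, h5, h6, h7, h8, h9⟩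
      have h10 := h.width m n k h1 h2 h3
      have h4' : (j2 x).1 0 m n = false := h4
      have h5' : (j2 x).1 0 n m = false := h5
      have h6' : (j2 x).1 0 n k = false := h6
      have h7' : (j2 x).1 0 k n = false := h7
      have h8' : (j2 x).1 0 m k = false := h8
      have h9' : (j2 x).1 0 k m = false := h9
      rw [h4', h5', h6', h7', h8', h9'] at h10
      simp at h10
    · exact hi _ hx _ σ ((j2_iso σ x y).2 h)

theorem hD_semi (C : Set W) (hC : MeasurableSet C) (hi : Inv C)
    (hV : ∀ z ∈ C, z.1 ∈ {T : Sys | SemiOrd T}) : CP C := by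
  refine pull Iso2 j2 j2_cont j2_iso C ?_ ?_
  · intro z hz
    refine ⟨(z.1 0, z.2), Prod.ext ?_ rfl⟩
    funext i
    show (if i = 0 then z.1 0 else fun _ _ => false) = z.1 i
    split_ifs with h0
    · rw [h0]
    · funext m n
      have := (hV z hz).emp (i - 1) m n
      rw [show i - 1 + 1 = i by omega] at this
      exact this.symm
  · have hrel : ∀ (σ : Equiv.Perm ℕ) x, Iso2 σ x (Pool.Agent.H31R3.SO.relY σ x) := by
      intro σ x
      refine ⟨fun m n => ?_, fun i m => ?_⟩
      · show x.1 (σ.symm (σ m)) (σ.symm (σ n)) = x.1 m n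
        rw [σ.symm_apply_apply, σ.symm_apply_apply]
      · show x.2 i (σ.symm (σ m)) = x.2 i m
        rw [σ.symm_apply_apply]
    have hrel' : ∀ (σ : Equiv.Perm ℕ) x y, Iso2 σ x y → y = Pool.Agent.H31R3.SO.relY σ x := by
      intro σ x y h
      refine Prod.ext ?_ ?_
      · funext m n
        have := h.1 (σ.symm m) (σ.symm n)
        rw [σ.apply_symm_apply, σ.apply_symm_apply] at this
        exact this
      · funext i m
        have := h.2 i (σ.symm m)
        rw [σ.apply_symm_apply] at this
        exact this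
    rcases Pool.Agent.H31R3.SO.semi_main (j2 ⁻¹' C) (j2_meas hC) (fun x hx =>
        ⟨(hV _ hx).irr, (hV _ hx).io, (hV _ hx).st⟩) (fun x hx σ =>
        hi _ hx _ σ ((j2_iso σ x _).2 (hrel σ x))) with ⟨f, hf⟩ | ⟨g, hg, hgB, hgi⟩
    · left
      refine ⟨f, fun x hx => ?_⟩
      obtain ⟨n, σ, h⟩ := hf x hx
      exact ⟨n, σ, by rw [h]; exact hrel σ _⟩
    · right
      exact ⟨g, hg, hgB, fun a b ⟨σ, h⟩ => hgi a b ⟨σ, hrel' σ _ _ h⟩⟩

theorem i_mono (T : Sys) (h : MonoOrd T) (σ : Equiv.Perm ℕ) :
    MonoOrd fun i m k => T i (σ m) (σ k) :=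
  ⟨fun m => h.irr _, fun m n k => h.tr _ _ _, fun m n e1 => h.tot _ _ fun e2 => e1 (σ.injective e2),
    fun m n k => h.left _ _ _, fun m n k => h.right _ _ _, fun i m n => h.emp _ _ _⟩

theorem i_width (T : Sys) (h : WidthTwo T) (σ : Equiv.Perm ℕ) :
    WidthTwo fun i m k => T i (σ m) (σ k) :=
  ⟨fun m => h.irr _, fun m n k => h.tr _ _ _, fun m n k e1 e2 e3 => h.width _ _ _
    (fun e => e1 (σ.injective e)) (fun e => e2 (σ.injective e)) (fun e => e3 (σ.injective e)),
    fun i m n => h.emp _ _ _⟩

theorem i_semi (T : Sys) (h : SemiOrd T) (σ : Equiv.Perm ℕ) :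
    SemiOrd fun i m k => T i (σ m) (σ k) :=
  ⟨fun m => h.irr _, fun x y z w => h.io _ _ _ _, fun x y z w => h.st _ _ _ _,
    fun i m n => h.emp _ _ _⟩

end Pool.Agent.H702R3.TV.Ext
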