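import Pool.Agent.H702R3.TV.Red
import Pool.Agent.H31R3.AL.Transfer
import Pool.Agent.H566M.All

set_option autoImplicit false
set_option linter.unusedVariables false

/-! The dichotomy for reducts of linear orders. -/

namespace Pool.Agent.H702R3.TV

open Set MeasureTheory

variable {k : ℕ}

theorem bsZ : BorelSpace Z3 := by
  have h1 : BorelSpace (ℕ → ℕ → Bool) := inferInstance
  have h2 : BorelSpace ((ℕ → ℕ → Bool) × (ℕ → ℕ → Bool)) := inferInstance
  have h3 : SecondCountableTopology ((ℕ → ℕ → Bool) × (ℕ → ℕ → Bool)) := inferInstance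
  exact Prod.borelSpace

theorem red_main (T : Red k) (hbase : Base) (B : Set (Yk k)) (hB : MeasurableSet B)
    (hV : ∀ y ∈ B, ∃ r : ℕ → ℕ → Prop, SLO r ∧ Mono r y.2.1 ∧ T.L r ∧
      ∀ v, y.1 v = true ↔ T.τ r v)
    (hi : ∀ x ∈ B, ∀ (y : Yk k) (σ : Equiv.Perm ℕ), IsoY σ x y → y ∈ B) :
    (∃ f : ℕ → Yk k, ∀ x ∈ B, ∃ n, ∃ σ : Equiv.Perm ℕ, IsoY σ (f n) x) ∨
    (∃ c : (ℕ → Bool) → Yk k, Continuous c ∧ (∀ A, c A ∈ B) ∧
      ∀ A A', (∃ σ : Equiv.Perm ℕ, IsoY σ (c A) (c A')) → A = A') := by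
  classical
  let A : Set Z3 := {z | T.V z ∧ T.ρ z ∈ B}
  have hA : MeasurableSet A := (measurableSet_setOfPred.2 (m_V T)).inter (m_ρ T hB)
  have hsur : ∀ y ∈ B, ∃ z ∈ A, T.ρ z = y := by
    intro y hy
    obtain ⟨r, h1, h2, h3, h4⟩ := hV y hy
    let z : Z3 := (fun m n => decide (r m n), y.2.1, y.2.2)
    have hz : od z = r := by
      funext m n
      exact propext decide_eq_true_iff
    have hρ : T.ρ z = y := by
      refine Prod.ext ?_ rfl
      funext v
      show decide (T.τ (od z) v) = y.1 v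
      rw [hz, Bool.eq_iff_iff, decide_eq_true_iff]
      exact (h4 v).symm
    refine ⟨z, ⟨⟨?_, ?_, ?_⟩, ?_⟩, hρ⟩
    · rw [hz]; exact h1
    · rw [hz]; exact h2
    · rw [hz]; exact h3
    · rw [hρ]; exact hy
  have hAi : ∀ x ∈ A, ∀ (y : Z3) (σ : Equiv.Perm ℕ), IsoZ σ x y → y ∈ A := by
    intro x hx y σ h
    have e : y = relZ σ.symm x := isoZ_eq (isoZ_symm h)
    rw [e]
    exact ⟨V_rel T hx.1 _, hi _ hx.2 _ σ.symm.symm (isoY_symm (ρ_rel T σ.symm x))⟩
  rcases hbase A hA (fun x hx => ⟨hx.1.1, hx.1.2.1⟩) hAi with ⟨f, hf⟩ | ⟨c, hc, hcA, hci⟩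
  · left
    refine ⟨fun n => T.ρ (f n), fun y hy => ?_⟩
    obtain ⟨z, hz, rfl⟩ := hsur y hy
    obtain ⟨n, σ, h⟩ := hf z hz
    refine ⟨n, σ, ?_⟩
    have e := isoZ_eq h
    show IsoY σ (T.ρ (f n)) (T.ρ z)
    rw [e]
    exact ρ_rel T σ z
  · right
    have hbs := bsZ
    have hme : Measurable fun a => T.ρ (c a) := (m_ρ T).comp hc.measurable
    have han := analytic_iso (fun a => T.ρ (c a)) (fun a => T.ρ (c a)) hme hme
    have hcnt : ∀ x ∈ A, ∃ C : Set Z3, C.Countable ∧ ∀ x' ∈ A,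
        (∃ σ : Equiv.Perm ℕ, IsoY σ (T.ρ x) (T.ρ x')) →
        ∃ c ∈ C, ∃ σ : Equiv.Perm ℕ, IsoZ σ c x' := by
      intro x hx
      refine ⟨{z | T.V z ∧ T.ρ z = T.ρ x}, fib_count T _, ?_⟩
      rintro x' hx' ⟨σ, hσ⟩
      exact ⟨relZ σ x', ⟨V_rel T hx'.1 _, isoY_eq (ρ_rel T σ x') hσ⟩, σ, relZ_iso σ x'⟩
    obtain ⟨h, hh1, hh2⟩ := core (E := fun x y : Z3 => ∃ σ : Equiv.Perm ℕ, IsoZ σ x y)
      (F := fun x y : Yk k => ∃ σ : Equiv.Perm ℕ, IsoY σ x y) (ρ := T.ρ) (A := A)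
      (fun x y ⟨σ, hσ⟩ => ⟨_, isoZ_symm hσ⟩)
      (fun x y z ⟨σ, hσ⟩ ⟨τ, hτ⟩ => ⟨_, isoZ_trans hσ hτ⟩) hcnt c hcA hci han
    have hk : Measurable fun a => T.ρ (c (h a)) := hme.comp hh1.measurable
    obtain ⟨h', h1', h2'⟩ := Pool.Agent.H31R3.AL.cont_of_borel (fun a => T.ρ (c (h a))) hk
    refine ⟨_, h2', fun a => (hcA _).2, fun a b hab => ?_⟩
    apply h1'
    by_contra hne
    exact hh2 _ _ hne hab

theorem base : Base := by
  intro B hB hV hi
  exact Pool.Agent.H566M.outM B hB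
    (fun x hx => ⟨fun m => by
        have := (hV x hx).1.irr m
        exact Bool.eq_false_iff.2 this, (hV x hx).1.tr, (hV x hx).1.tot, (hV x hx).2.1,
      (hV x hx).2.2⟩) hi

theorem agree {r r' : ℕ → ℕ → Prop} (hr : SLO r) (hr' : SLO r') {a b : ℕ} (hab : a ≠ b)
    (h : r a b ↔ r' a b) : (r a b ∧ r' a b) ∨ (r b a ∧ r' b a) := by
  by_cases h1 : r a b
  · exact Or.inl ⟨h1, h.1 h1⟩
  · exact Or.inr ⟨(hr.tot a b hab).resolve_left h1,
      (hr'.tot a b hab).resolve_left fun h2 => h1 (h.2 h2)⟩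

open Classical in
/-- truth value -/
noncomputable def tv (p : Prop) : ℕ := if p then 1 else 0

open Classical in
theorem tv_inj {p q : Prop} (h : tv p = tv q) : p ↔ q := by
  unfold tv at h
  by_cases hp : p <;> by_cases hq : q <;> simp [hp, hq] at h ⊢

/-- betweenness relations -/
noncomputable def TB : Red 3 where
  τ r v := Btw r (v 0) (v 1) (v 2)
  L _ := True
  τ_nat _ _ _ := Iff.rfl
  L_nat _ _ _ := trivial
  τ_meas v := ((m_od _ _).and (m_od _ _)).or ((m_od _ _).and (m_od _ _))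
  L_meas := measurable_const
  κ r := tv (r 0 1)
  κ_inj r r' hr hr' _ _ h hκ m n hmn := by
    have h' : ∀ x y z, Btw r x y z ↔ Btw r' x y z := fun x y z => h ![x, y, z]
    rcases agree hr hr' (Nat.zero_ne_one) (tv_inj hκ) with h1 | h1
    · exact eq_of_btw hr hr' (S := fun _ => True) (fun x y z _ _ _ => h' x y z) trivial trivial
        h1.1 h1.2 trivial trivial hmn
    · exact eq_of_btw hr hr' (S := fun _ => True) (fun x y z _ _ _ => h' x y z) trivial trivial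
        h1.1 h1.2 trivial trivial hmn

theorem least_rel {r : ℕ → ℕ → Prop} (σ : Equiv.Perm ℕ) (h : ∃ p, Least r p) :
    ∃ p, Least (fun m n => r (σ m) (σ n)) p := by
  obtain ⟨p, hp⟩ := h
  refine ⟨σ.symm p, fun m hm => ?_⟩
  show r (σ (σ.symm p)) (σ m)
  rw [σ.apply_symm_apply]
  exact hp _ fun e => hm (by rw [← e, σ.symm_apply_apply])

theorem m_least : Measurable fun z : Z3 => ∃ p, Least (od z) p := by
  unfold Least
  exact Measurable.exists fun p => Measurable.forall fun m => measurable_const.imp (m_od p m)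

open Classical in
/-- the least element -/
noncomputable def lp (r : ℕ → ℕ → Prop) : ℕ := if h : ∃ p, Least r p then h.choose else 0

theorem lp_spec {r : ℕ → ℕ → Prop} (h : ∃ p, Least r p) : Least r (lp r) := by
  unfold lp
  rw [dif_pos h]
  exact h.choose_spec

theorem m_cyc (a b c : ℕ) : Measurable fun z : Z3 => Cyc (od z) a b c :=
  ((m_od _ _).and (m_od _ _)).or (((m_od _ _).and (m_od _ _)).or ((m_od _ _).and (m_od _ _)))

/-- circular orders -/
noncomputable def TC : Red 3 where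
  τ r v := Cyc r (v 0) (v 1) (v 2)
  L r := ∃ p, Least r p
  τ_nat _ _ _ := Iff.rfl
  L_nat _ σ h := least_rel σ h
  τ_meas v := m_cyc _ _ _
  L_meas := m_least
  κ r := lp r
  κ_inj r r' hr hr' hL hL' h hκ m n hmn := by
    have h' : ∀ x y z, Cyc r x y z ↔ Cyc r' x y z := fun x y z => h ![x, y, z]
    have h2 := lp_spec hL'
    have hκ' : lp r = lp r' := hκ
    rw [← hκ'] at h2
    exact eq_of_cyc hr hr' h' (lp_spec hL) h2 hmn

/-- separation relations -/
noncomputable def TS : Red 4 where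
  τ r v := Sep r (v 0) (v 1) (v 2) (v 3)
  L r := ∃ p, Least r p
  τ_nat _ _ _ := Iff.rfl
  L_nat _ σ h := least_rel σ h
  τ_meas v := ((m_cyc _ _ _).and (m_cyc _ _ _)).or ((m_cyc _ _ _).and (m_cyc _ _ _))
  L_meas := m_least
  κ r := Nat.pair (lp r) (Nat.pair (tv (r 0 1)) (Nat.pair (tv (r 0 2)) (tv (r 1 2))))
  κ_inj r r' hr hr' hL hL' h hκ m n hmn := by
    have h' : ∀ x y z w, Sep r x y z w ↔ Sep r' x y z w := fun x y z w => h ![x, y, z, w]
    rw [Nat.pair_eq_pair, Nat.pair_eq_pair, Nat.pair_eq_pair] at hκ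
    obtain ⟨e, e1, e2, e3⟩ := hκ
    have h1 := lp_spec hL
    have h2 := lp_spec hL'
    rw [← e] at h2
    have key : ∀ a b : ℕ, a ≠ b → a ≠ lp r → b ≠ lp r → (r a b ↔ r' a b) → r' m n := by
      intro a b hab ha hb hi
      rcases agree hr hr' hab hi with h3 | h3
      · exact eq_of_sep hr hr' h' h1 h2 ha hb h3.1 h3.2 hmn
      · exact eq_of_sep hr hr' h' h1 h2 hb ha h3.1 h3.2 hmn
    by_cases p0 : lp r = 0
    · exact key 1 2 (by decide) (by rw [p0]; decide) (by rw [p0]; decide) (tv_inj e3)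
    · by_cases p1 : lp r = 1
      · exact key 0 2 (by decide) (by rw [p1]; decide) (by rw [p1]; decide) (tv_inj e2)
      · exact key 0 1 (by decide) (Ne.symm p0) (Ne.symm p1) (tv_inj e1)

end Pool.Agent.H702R3.TV
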