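import Mathlib

set_option autoImplicit false

/-! Betweenness, circular and separation relations of linear orders: recovering the order. -/

namespace Pool.Agent.H702R3.TV

/-- strict linear orders -/
structure SLO (r : ℕ → ℕ → Prop) : Prop where
  irr : ∀ m, ¬ r m m
  tr : ∀ m n k, r m n → r n k → r m k
  tot : ∀ m n, m ≠ n → r m n ∨ r n m

/-- betweenness -/
def Btw (r : ℕ → ℕ → Prop) (x y z : ℕ) : Prop := (r x y ∧ r y z) ∨ (r z y ∧ r y x)

/-- the circular relation -/
def Cyc (r : ℕ → ℕ → Prop) (x y z : ℕ) : Prop :=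
  (r x y ∧ r y z) ∨ (r y z ∧ r z x) ∨ (r z x ∧ r x y)

/-- the separation relation -/
def Sep (r : ℕ → ℕ → Prop) (x y z w : ℕ) : Prop :=
  (Cyc r x z y ∧ Cyc r y w x) ∨ (Cyc r x w y ∧ Cyc r y z x)

/-- a least element -/
def Least (r : ℕ → ℕ → Prop) (p : ℕ) : Prop := ∀ m, m ≠ p → r p m

variable {r r' : ℕ → ℕ → Prop}

/-- the orders disagree on the pair -/
def Rv (r r' : ℕ → ℕ → Prop) (x y : ℕ) : Prop := (r x y ∧ r' y x) ∨ (r y x ∧ r' x y)

theorem Rv.symm {x y : ℕ} (h : Rv r r' x y) : Rv r r' y x := by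
  rcases h with h | h
  · exact Or.inr h
  · exact Or.inl h

theorem rv_flip (hr : SLO r) (hr' : SLO r') {S : ℕ → Prop}
    (h : ∀ x y z, S x → S y → S z → (Btw r x y z ↔ Btw r' x y z))
    {x y z : ℕ} (hx : S x) (hy : S y) (hz : S z) (h1 : r x y) (h2 : r' y x) (hzx : z ≠ x)
    (hzy : z ≠ y) : Rv r r' x z := by
  have no : ¬ r' x y := fun h3 => hr'.irr x (hr'.tr _ _ _ h3 h2)
  rcases hr.tot x z (Ne.symm hzx) with h3 | h3
  · refine Or.inl ⟨h3, ?_⟩
    rcases hr.tot y z (Ne.symm hzy) with h4 | h4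
    · rcases (h x y z hx hy hz).1 (Or.inl ⟨h1, h4⟩) with h5 | h5
      · exact absurd h5.1 no
      · exact hr'.tr _ _ _ h5.1 h5.2
    · rcases (h x z y hx hz hy).1 (Or.inl ⟨h3, h4⟩) with h5 | h5
      · exact absurd (hr'.tr _ _ _ h5.1 h5.2) no
      · exact h5.2
  · refine Or.inr ⟨h3, ?_⟩
    rcases (h z x y hz hx hy).1 (Or.inl ⟨h3, h1⟩) with h5 | h5
    · exact absurd h5.2 no
    · exact h5.2

theorem rv_step (hr : SLO r) (hr' : SLO r') {S : ℕ → Prop}
    (h : ∀ x y z, S x → S y → S z → (Btw r x y z ↔ Btw r' x y z))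
    {x y z : ℕ} (hx : S x) (hy : S y) (hz : S z) (hxy : Rv r r' x y) (hzx : z ≠ x) :
    Rv r r' x z := by
  by_cases hzy : z = y
  · rw [hzy]; exact hxy
  rcases hxy with h1 | h1
  · exact rv_flip hr hr' h hx hy hz h1.1 h1.2 hzx hzy
  · have h2 := rv_flip hr' hr (fun a b c ha hb hc => (h a b c ha hb hc).symm) hx hy hz h1.2 h1.1
      hzx hzy
    rcases h2 with h3 | h3
    · exact Or.inr ⟨h3.2, h3.1⟩
    · exact Or.inl ⟨h3.2, h3.1⟩

theorem rv_all (hr : SLO r) (hr' : SLO r') {S : ℕ → Prop}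
    (h : ∀ x y z, S x → S y → S z → (Btw r x y z ↔ Btw r' x y z))
    {x y : ℕ} (hx : S x) (hy : S y) (hxy : Rv r r' x y) {a b : ℕ} (ha : S a) (hb : S b)
    (hab : a ≠ b) : Rv r r' a b := by
  by_cases hax : a = x
  · subst hax
    exact rv_step hr hr' h ha hy hb hxy (Ne.symm hab)
  · have h1 := rv_step hr hr' h hx hy ha hxy hax
    exact rv_step hr hr' h ha hx hb h1.symm (Ne.symm hab)

/-- Orders with the same betweenness that agree on a pair agree. -/
theorem eq_of_btw (hr : SLO r) (hr' : SLO r') {S : ℕ → Prop}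
    (h : ∀ x y z, S x → S y → S z → (Btw r x y z ↔ Btw r' x y z))
    {a b : ℕ} (ha : S a) (hb : S b) (h1 : r a b) (h2 : r' a b) {x y : ℕ} (hx : S x) (hy : S y)
    (hxy : r x y) : r' x y := by
  by_contra hcon
  have hne : x ≠ y := fun e => hr.irr x (by rw [← e] at hxy; exact hxy)
  have hyx : r' y x := (hr'.tot x y hne).resolve_left hcon
  have hab : a ≠ b := fun e => hr.irr a (by rw [← e] at h1; exact h1)
  rcases rv_all hr hr' h hx hy (Or.inl ⟨hxy, hyx⟩) ha hb hab with h3 | h3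
  · exact hr'.irr a (hr'.tr _ _ _ h2 h3.2)
  · exact hr.irr a (hr.tr _ _ _ h1 h3.1)

theorem cyc_least (hr : SLO r) {p x y : ℕ} (hp : Least r p) (hx : x ≠ p) (hy : y ≠ p) :
    Cyc r p x y ↔ r x y := by
  constructor
  · rintro (h | h | h)
    · exact h.2
    · exact absurd (hr.tr _ _ _ h.2 (hp y hy)) (hr.irr y)
    · exact absurd (hr.tr _ _ _ h.1 (hp y hy)) (hr.irr y)
  · intro h
    exact Or.inl ⟨hp x hx, h⟩

/-- Orders with the same circular relation and the same least element agree. -/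
theorem eq_of_cyc (hr : SLO r) (hr' : SLO r') (h : ∀ x y z, Cyc r x y z ↔ Cyc r' x y z) {p : ℕ}
    (hp : Least r p) (hp' : Least r' p) {x y : ℕ} (hxy : r x y) : r' x y := by
  have hne : x ≠ y := fun e => hr.irr x (by rw [← e] at hxy; exact hxy)
  have hy : y ≠ p := fun e => by
    rw [e] at hxy hne
    exact hr.irr x (hr.tr _ _ _ hxy (hp x hne))
  by_cases hx : x = p
  · rw [hx]; exact hp' y hy
  · rw [← cyc_least hr' hp' hx hy, ← h, cyc_least hr hp hx hy]
    exact hxy

theorem cyc_least2 (hr : SLO r) {p x y : ℕ} (hp : Least r p) (hx : x ≠ p) (hy : y ≠ p) :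
    Cyc r x y p ↔ r x y := by
  have : Cyc r x y p ↔ Cyc r p x y := by
    unfold Cyc
    tauto
  rw [this, cyc_least hr hp hx hy]

theorem cyc_least3 (hr : SLO r) {p x y : ℕ} (hp : Least r p) (hx : x ≠ p) (hy : y ≠ p) :
    Cyc r x p y ↔ r y x := by
  have : Cyc r x p y ↔ Cyc r p y x := by
    unfold Cyc
    tauto
  rw [this, cyc_least hr hp hy hx]

/-- the separation relation with the least element is the betweenness relation -/
theorem sep_least (hr : SLO r) {p x y z : ℕ} (hp : Least r p) (hx : x ≠ p) (hy : y ≠ p)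
    (hz : z ≠ p) : Sep r p y x z ↔ Btw r x y z := by
  unfold Sep Btw
  rw [cyc_least hr hp hx hy, cyc_least2 hr hp hy hz, cyc_least hr hp hz hy,
    cyc_least2 hr hp hy hx]

/-- Orders with the same separation relation and the same least element that agree on a pair
agree. -/
theorem eq_of_sep (hr : SLO r) (hr' : SLO r') (h : ∀ x y z w, Sep r x y z w ↔ Sep r' x y z w)
    {p : ℕ} (hp : Least r p) (hp' : Least r' p) {a b : ℕ} (ha : a ≠ p) (hb : b ≠ p)
    (h1 : r a b) (h2 : r' a b) {x y : ℕ} (hxy : r x y) : r' x y := by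
  have hne : x ≠ y := fun e => hr.irr x (by rw [← e] at hxy; exact hxy)
  have hy : y ≠ p := fun e => by
    rw [e] at hxy hne
    exact hr.irr x (hr.tr _ _ _ hxy (hp x hne))
  by_cases hx : x = p
  · rw [hx]; exact hp' y hy
  · refine eq_of_btw hr hr' (S := fun m => m ≠ p) (fun u v w hu hv hw => ?_) ha hb h1 h2 hx hy hxy
    rw [← sep_least hr hp hu hv hw, ← sep_least hr' hp' hu hv hw]
    exact h _ _ _ _

theorem least_unique (hr : SLO r) {p q : ℕ} (hp : Least r p) (hq : Least r q) : p = q := by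
  by_contra hne
  exact hr.irr p (hr.tr _ _ _ (hp q (Ne.symm hne)) (hq p hne))

end Pool.Agent.H702R3.TV
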