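import Pool.Agent.H702R3.TV.Core
import Pool.Agent.H702R3.TV.Ord

set_option autoImplicit false
set_option linter.unusedVariables false

/-! Reducts of linear orders with a monotone relation and unary predicates. -/

namespace Pool.Agent.H702R3.TV

open Set MeasureTheory

/-- linear orders with a monotone relation and unary predicates -/
abbrev Z3 : Type := (ℕ → ℕ → Bool) × (ℕ → ℕ → Bool) × (ℕ → ℕ → Bool)

/-- the order of a structure -/
def od (z : Z3) (m n : ℕ) : Prop := z.1 m n = true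

/-- monotone relations -/
def Mono (r : ℕ → ℕ → Prop) (R : ℕ → ℕ → Bool) : Prop :=
  (∀ m n k, r m n → R n k = true → R m k = true) ∧
    ∀ m n k, R m n = true → r n k → R m k = true

/-- isomorphism -/
def IsoZ (σ : Equiv.Perm ℕ) (x y : Z3) : Prop :=
  (∀ m n, y.1 (σ m) (σ n) = x.1 m n) ∧ (∀ m n, y.2.1 (σ m) (σ n) = x.2.1 m n) ∧
    ∀ i m, y.2.2 i (σ m) = x.2.2 i m

/-- the dichotomy for linear orders with a monotone relation -/
def Base : Prop := ∀ B : Set Z3, MeasurableSet B →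
  (∀ x ∈ B, SLO (od x) ∧ Mono (od x) x.2.1) →
  (∀ x ∈ B, ∀ (y : Z3) (σ : Equiv.Perm ℕ), IsoZ σ x y → y ∈ B) →
  (∃ f : ℕ → Z3, ∀ x ∈ B, ∃ n, ∃ σ : Equiv.Perm ℕ, IsoZ σ (f n) x) ∨
  (∃ c : (ℕ → Bool) → Z3, Continuous c ∧ (∀ A, c A ∈ B) ∧
    ∀ A A', (∃ σ : Equiv.Perm ℕ, IsoZ σ (c A) (c A')) → A = A')

/-- structures with a relation of arity `k`, a binary relation and unary predicates -/
abbrev Yk (k : ℕ) : Type := ((Fin k → ℕ) → Bool) × (ℕ → ℕ → Bool) × (ℕ → ℕ → Bool)

/-- isomorphism -/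
def IsoY {k : ℕ} (σ : Equiv.Perm ℕ) (x y : Yk k) : Prop :=
  (∀ v, y.1 (⇑σ ∘ v) = x.1 v) ∧ (∀ m n, y.2.1 (σ m) (σ n) = x.2.1 m n) ∧
    ∀ i m, y.2.2 i (σ m) = x.2.2 i m

/-- reducts from which the order can be recovered up to countably many choices -/
structure Red (k : ℕ) where
  τ : (ℕ → ℕ → Prop) → (Fin k → ℕ) → Prop
  L : (ℕ → ℕ → Prop) → Prop
  τ_nat : ∀ (r : ℕ → ℕ → Prop) (σ : Equiv.Perm ℕ) v,
    τ (fun m n => r (σ m) (σ n)) v ↔ τ r (⇑σ ∘ v)
  L_nat : ∀ (r : ℕ → ℕ → Prop) (σ : Equiv.Perm ℕ), L r → L (fun m n => r (σ m) (σ n))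
  τ_meas : ∀ v, Measurable fun z : Z3 => τ (od z) v
  L_meas : Measurable fun z : Z3 => L (od z)
  κ : (ℕ → ℕ → Prop) → ℕ
  κ_inj : ∀ r r', SLO r → SLO r' → L r → L r' → (∀ v, τ r v ↔ τ r' v) → κ r = κ r' →
    ∀ m n, r m n → r' m n

variable {k : ℕ}

/-- relabelling -/
def relZ (σ : Equiv.Perm ℕ) (z : Z3) : Z3 :=
  (fun m n => z.1 (σ m) (σ n), fun m n => z.2.1 (σ m) (σ n), fun i m => z.2.2 i (σ m))

open Classical in
/-- the reduct -/
noncomputable def Red.ρ (T : Red k) (z : Z3) : Yk k :=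
  (fun v => decide (T.τ (od z) v), z.2.1, z.2.2)

/-- the good structures -/
def Red.V (T : Red k) (z : Z3) : Prop := SLO (od z) ∧ Mono (od z) z.2.1 ∧ T.L (od z)

theorem slo_rel {r : ℕ → ℕ → Prop} (h : SLO r) (σ : Equiv.Perm ℕ) :
    SLO (fun m n => r (σ m) (σ n)) :=
  ⟨fun m => h.irr _, fun m n k => h.tr _ _ _, fun m n hmn => h.tot _ _ fun e => hmn (σ.injective e)⟩

theorem V_rel (T : Red k) {z : Z3} (h : T.V z) (σ : Equiv.Perm ℕ) : T.V (relZ σ z) :=
  ⟨slo_rel h.1 σ, ⟨fun m n l => h.2.1.1 _ _ _, fun m n l => h.2.1.2 _ _ _⟩, T.L_nat _ σ h.2.2⟩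

theorem relZ_iso (σ : Equiv.Perm ℕ) (z : Z3) : IsoZ σ (relZ σ z) z :=
  ⟨fun _ _ => rfl, fun _ _ => rfl, fun _ _ => rfl⟩

theorem isoZ_eq {σ : Equiv.Perm ℕ} {x y : Z3} (h : IsoZ σ x y) : x = relZ σ y := by
  refine Prod.ext ?_ (Prod.ext ?_ ?_)
  · funext m n; exact (h.1 m n).symm
  · funext m n; exact (h.2.1 m n).symm
  · funext m n; exact (h.2.2 m n).symm

theorem isoZ_symm {σ : Equiv.Perm ℕ} {x y : Z3} (h : IsoZ σ x y) : IsoZ σ.symm y x := by
  rw [isoZ_eq h]
  refine ⟨fun m n => ?_, fun m n => ?_, fun i m => ?_⟩ <;> simp [relZ]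

theorem isoZ_trans {σ τ : Equiv.Perm ℕ} {x y z : Z3} (h : IsoZ σ x y) (h' : IsoZ τ y z) :
    IsoZ (σ.trans τ) x z := by
  rw [isoZ_eq h, isoZ_eq h']
  exact ⟨fun _ _ => rfl, fun _ _ => rfl, fun _ _ => rfl⟩

open Classical in
theorem ρ_rel (T : Red k) (σ : Equiv.Perm ℕ) (z : Z3) : IsoY σ (T.ρ (relZ σ z)) (T.ρ z) := by
  refine ⟨fun v => ?_, fun _ _ => rfl, fun _ _ => rfl⟩
  show decide (T.τ (od z) (⇑σ ∘ v)) = decide (T.τ (od (relZ σ z)) v)
  exact decide_eq_decide.2 (T.τ_nat (od z) σ v).symm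

theorem isoY_eq {σ : Equiv.Perm ℕ} {x x' y : Yk k} (h : IsoY σ x y) (h' : IsoY σ x' y) :
    x = x' := by
  refine Prod.ext ?_ (Prod.ext ?_ ?_)
  · funext v; exact (h.1 v).symm.trans (h'.1 v)
  · funext m n; exact (h.2.1 m n).symm.trans (h'.2.1 m n)
  · funext m n; exact (h.2.2 m n).symm.trans (h'.2.2 m n)

theorem isoY_symm {σ : Equiv.Perm ℕ} {x y : Yk k} (h : IsoY σ x y) : IsoY σ.symm y x := by
  refine ⟨fun v => ?_, fun m n => ?_, fun i m => ?_⟩
  · have e : (⇑σ ∘ (⇑σ.symm ∘ v)) = v := by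
      funext j
      simp
    rw [← h.1 (⇑σ.symm ∘ v), e]
  · rw [← h.2.1]; simp
  · rw [← h.2.2]; simp

open Classical in
/-- the fibres are countable -/
theorem fib_count (T : Red k) (y : Yk k) : {z : Z3 | T.V z ∧ T.ρ z = y}.Countable := by
  refine Set.countable_of_injective_of_countable_image (f := fun z : Z3 => T.κ (od z)) ?_
    (Set.to_countable _)
  intro z hz z' hz' hκ
  have e : T.ρ z = T.ρ z' := hz.2.trans hz'.2.symm
  have e1 : ∀ v, T.τ (od z) v ↔ T.τ (od z') v := by
    intro v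
    have := congrFun (congrArg Prod.fst e) v
    exact decide_eq_decide.1 this
  have h1 := T.κ_inj _ _ hz.1.1 hz'.1.1 hz.1.2.2 hz'.1.2.2 e1 hκ
  have h2 := T.κ_inj _ _ hz'.1.1 hz.1.1 hz'.1.2.2 hz.1.2.2 (fun v => (e1 v).symm) hκ.symm
  refine Prod.ext ?_ (show z.2 = z'.2 from congrArg (fun y : Yk k => y.2) e)
  funext m n
  exact Bool.eq_iff_iff.2 ⟨h1 m n, h2 m n⟩

theorem m_od (m n : ℕ) : Measurable fun z : Z3 => od z m n := by
  have h : Measurable fun z : Z3 => z.1 m n :=
    (measurable_pi_apply n).comp ((measurable_pi_apply m).comp measurable_fst)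
  exact measurableSet_setOfPred.1 (h (measurableSet_singleton true))

theorem m_R (m n : ℕ) : Measurable fun z : Z3 => z.2.1 m n = true := by
  have h : Measurable fun z : Z3 => z.2.1 m n :=
    (measurable_pi_apply n).comp ((measurable_pi_apply m).comp
      (measurable_fst.comp measurable_snd))
  exact measurableSet_setOfPred.1 (h (measurableSet_singleton true))

theorem m_V (T : Red k) : Measurable fun z : Z3 => T.V z := by
  have h1 : Measurable fun z : Z3 => SLO (od z) := by
    have e : (fun z : Z3 => SLO (od z)) = fun z : Z3 => (∀ m, ¬ od z m m) ∧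
        (∀ m n k, od z m n → od z n k → od z m k) ∧ ∀ m n, m ≠ n → od z m n ∨ od z n m := by
      funext z
      exact propext ⟨fun h => ⟨h.irr, h.tr, h.tot⟩, fun h => ⟨h.1, h.2.1, h.2.2⟩⟩
    rw [e]
    refine (Measurable.forall fun m => (m_od m m).not).and ((Measurable.forall fun m =>
      Measurable.forall fun n => Measurable.forall fun k => (m_od m n).imp
        ((m_od n k).imp (m_od m k))).and ?_)
    refine Measurable.forall fun m => Measurable.forall fun n => ?_
    exact measurable_const.imp ((m_od m n).or (m_od n m))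
  have h2 : Measurable fun z : Z3 => Mono (od z) z.2.1 := by
    unfold Mono
    refine (Measurable.forall fun m => Measurable.forall fun n => Measurable.forall fun k =>
      (m_od m n).imp ((m_R n k).imp (m_R m k))).and ?_
    exact Measurable.forall fun m => Measurable.forall fun n => Measurable.forall fun k =>
      (m_R m n).imp ((m_od n k).imp (m_R m k))
  exact h1.and (h2.and T.L_meas)

open Classical in
theorem m_ρ (T : Red k) : Measurable T.ρ := by
  refine Measurable.prodMk ?_ measurable_snd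
  refine measurable_pi_iff.2 fun v => ?_
  refine measurable_to_bool ?_
  have e : (fun z : Z3 => decide (T.τ (od z) v)) ⁻¹' {true} = {z : Z3 | T.τ (od z) v} := by
    ext z
    simp
  rw [e]
  exact measurableSet_setOfPred.2 (T.τ_meas v)

/-- isomorphism of Borel families is analytic -/
theorem analytic_iso (u v : (ℕ → Bool) → Yk k) (hu : Measurable u) (hv : Measurable v) :
    AnalyticSet {p : (ℕ → Bool) × (ℕ → Bool) | ∃ σ : Equiv.Perm ℕ, IsoY σ (u p.1) (v p.2)} := by
  set Ω : Type := ((ℕ → Bool) × (ℕ → Bool)) × ((ℕ → ℕ) × (ℕ → ℕ)) with hΩ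
  have m1 : ∀ a b : ℕ, Measurable fun q : Ω => q.2.1 a = b := fun a b => by
    have h : Measurable fun q : Ω => q.2.1 a :=
      (measurable_pi_apply a).comp (measurable_fst.comp measurable_snd)
    exact measurableSet_setOfPred.1 (h (measurableSet_singleton b))
  have m2 : ∀ a b : ℕ, Measurable fun q : Ω => q.2.2 a = b := fun a b => by
    have h : Measurable fun q : Ω => q.2.2 a :=
      (measurable_pi_apply a).comp (measurable_snd.comp measurable_snd)
    exact measurableSet_setOfPred.1 (h (measurableSet_singleton b))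
  have m3 : ∀ (f g : Ω → Bool), Measurable f → Measurable g →
      Measurable fun q : Ω => f q = g q := fun f g hf hg =>
    measurableSet_setOfPred.1 (measurableSet_eq_fun hf hg)
  have mu : Measurable fun q : Ω => u q.1.1 := hu.comp (measurable_fst.comp measurable_fst)
  have mv : Measurable fun q : Ω => v q.1.2 := hv.comp (measurable_snd.comp measurable_fst)
  let P : Ω → Prop := fun q => (∀ a b, q.2.1 a = b → q.2.2 b = a) ∧
    (∀ a b, q.2.2 a = b → q.2.1 b = a) ∧
    (∀ w t : Fin k → ℕ, (∀ j, q.2.1 (w j) = t j) → (v q.1.2).1 t = (u q.1.1).1 w) ∧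
    (∀ a b c d, q.2.1 a = c → q.2.1 b = d → (v q.1.2).2.1 c d = (u q.1.1).2.1 a b) ∧
    ∀ i a c, q.2.1 a = c → (v q.1.2).2.2 i c = (u q.1.1).2.2 i a
  have hP : Measurable P := by
    refine (Measurable.forall fun a => Measurable.forall fun b => (m1 a b).imp (m2 b a)).and ?_
    refine (Measurable.forall fun a => Measurable.forall fun b => (m2 a b).imp (m1 b a)).and ?_
    refine (Measurable.forall fun w : Fin k → ℕ => Measurable.forall fun t : Fin k → ℕ =>
      (Measurable.forall fun j : Fin k => m1 (w j) (t j)).imp (m3 _ _ ?_ ?_)).and ?_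
    · exact (measurable_pi_apply t).comp (measurable_fst.comp mv)
    · exact (measurable_pi_apply w).comp (measurable_fst.comp mu)
    refine (Measurable.forall fun a => Measurable.forall fun b => Measurable.forall fun c =>
      Measurable.forall fun d => (m1 a c).imp ((m1 b d).imp (m3 _ _ ?_ ?_))).and ?_
    · exact (measurable_pi_apply d).comp ((measurable_pi_apply c).comp
        (measurable_fst.comp (measurable_snd.comp mv)))
    · exact (measurable_pi_apply b).comp ((measurable_pi_apply a).comp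
        (measurable_fst.comp (measurable_snd.comp mu)))
    refine Measurable.forall fun i => Measurable.forall fun a => Measurable.forall fun c =>
      (m1 a c).imp (m3 _ _ ?_ ?_)
    · exact (measurable_pi_apply c).comp ((measurable_pi_apply i).comp
        (measurable_snd.comp (measurable_snd.comp mv)))
    · exact (measurable_pi_apply a).comp ((measurable_pi_apply i).comp
        (measurable_snd.comp (measurable_snd.comp mu)))
  have h2 : {p : (ℕ → Bool) × (ℕ → Bool) | ∃ σ : Equiv.Perm ℕ, IsoY σ (u p.1) (v p.2)} =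
      Prod.fst '' {q : Ω | P q} := by
    ext p
    constructor
    · rintro ⟨σ, hσ⟩
      refine ⟨(p, (⇑σ, ⇑σ.symm)), ⟨?_, ?_, ?_, ?_, ?_⟩, rfl⟩
      · rintro a b rfl; exact σ.symm_apply_apply a
      · rintro a b rfl; exact σ.apply_symm_apply a
      · intro w t hwt
        have : t = ⇑σ ∘ w := funext fun j => (hwt j).symm
        rw [this]; exact hσ.1 w
      · rintro a b c d rfl rfl; exact hσ.2.1 a b
      · rintro i a c rfl; exact hσ.2.2 i a
    · rintro ⟨⟨p', s, t⟩, ⟨h1, h2, h3, h4, h5⟩, rfl⟩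
      exact ⟨⟨s, t, fun a => h1 a _ rfl, fun a => h2 a _ rfl⟩, fun w => h3 w _ fun j => rfl,
        fun a b => h4 a b _ _ rfl rfl, fun i a => h5 i a _ rfl⟩
  rw [h2]
  exact (measurableSet_setOfPred.2 hP).analyticSet_image measurable_fst

end Pool.Agent.H702R3.TV
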